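import Pool.Agent.Helper29.MX.St
import Pool.Agent.Helper59.OKD.Nr
import Pool.Agent.Helper80.SUB.Nc
import Pool.Agent.Helper80.OKC.Pnt

/-! The classes `DKU` (non concentration of the tangents for some constant) are ordinary classes of the MAX chapter: they
have all the closure properties `OkA`. -/

set_option autoImplicit false

namespace Pool.Agent.Helper46.OKD

open Finset Filter Topology Matrix Pool.Agent.Helper69.RK Pool.Agent.Helper31.EC Pool.Agent.Helper31.EC.Sp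
open Pool.Agent.Helper40.EL Pool.Agent.Helper89.LX Pool.Agent.Helper3.LF Pool.Agent.Helper84.MT
open Pool.Agent.Helper49.MD Pool.Agent.Helper36.AM Pool.Agent.Helper37.DK2 Pool.Agent.Helper59.OKD
open Pool.Agent.Helper29.MX (Nrq OkA)
open Pool.Agent.Helper24.PR (ovl lov pcd_ovl)

noncomputable section

variable {S T : Sp} {M : ℕ} {E E' : ℕ → ℕ} {ι κ : Type} {k : ℕ} {h₀ : ℝ} {s : MSys S M E ι}

/-- TRUNCATIONS -/
theorem NC_trn (h0 : 0 < h₀) (H : NC k h₀ s) (e : ℝ) (he : 0 < e) (h1 : e ≤ 1) : NC k h₀ (s.trn e he h1) := by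
  have H1 : NCR k h₀ (s.trn e he h1) (fun n => Setoid.ker (s.Q.cellv 1 n)) := (NCR_vis.mpr H).trn e he h1
  refine NCR_vis.mp (H1.cnd h0 ?_)
  refine PLe_cell (S := S.chg S.tr e he) (s.trn e he h1).Q 1 (fun n => Setoid.ker (s.Q.cellv 1 n)) (fun _ => 1)
    ((S.chg S.tr e he).Sub_const zero_le_one) (Eventually.of_forall fun n ω ω' _ _ _ r i => ?_)
  have e1 : (S.chg S.tr e he).dl 1 n = S.dl (e * 1) n := chg_dl S.tr e he 1 n
  rw [e1, one_mul, mul_one]
  have e2 : |s.Q.v n ω i - s.Q.v n ω' i| ≤ S.dl 1 n := abs_sub_le_of_floor_eq (S.dl_pos 1 n) (congrFun r i)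
  exact e2.trans (S.dl_anti h1 n)

/-- CHANGES OF THE POINT by the finest resolution -/
theorem NC_pnt [Finite ι] (h0 : 0 < h₀) (H : NC k h₀ s) {s' : MSys S M E ι} (hs : Nrq s s') : NC k h₀ s' := by
  obtain ⟨h1, K, hK, hc⟩ := hs
  have H1 : NCR k h₀ s' (fun n => Setoid.ker (s.Q.cellv 1 n)) := (NCR_vis.mpr H).more id h1
  refine NCR_vis.mp (H1.cnd h0 ?_)
  refine PLe_cell s'.Q 1 (fun n => Setoid.ker (s.Q.cellv 1 n)) (fun n => 1 + (K n + K n))
    ((S.Sub_const zero_le_one).add (hK.add hK)) ?_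
  filter_upwards [hc] with n a1 ω ω' b1 b2 _ r i
  have e2 : |s.Q.v n ω i - s.Q.v n ω' i| ≤ S.dl 1 n := abs_sub_le_of_floor_eq (S.dl_pos 1 n) (congrFun r i)
  have e3 := a1 ω b1 i
  have e4 := a1 ω' b2 i
  rw [abs_le] at e2 e3 e4 ⊢
  constructor <;> nlinarith

/-- BASE CHANGE over a label without leak at the point -/
theorem NC_bas (h0 : 0 < h₀) (H : NC k h₀ s) (l : Lab S) (hp : Nul S fun n => (l n).leak (pcd s.Q n))
    (hl : ∀ i, Nul S fun n => (l n).leak ((s.lf i).win 0 n)) : NC k h₀ (ovl s l hl) := by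
  have H1 : NCR k h₀ s (fun n => Setoid.ker (s.Q.cellv 1 n)) := NCR_vis.mpr H
  refine NCR_vis.mp (H1.over h0 l one_pos le_rfl hp ?_ (fun _ _ => 1) (Eventually.of_forall fun _ _ _ _ _ _ _ _ _ => rfl)
    (S.Sub_const (K := 1) zero_le_one) (Eventually.of_forall fun n w _ b => ?_) ?_)
  · refine Tendsto.congr (fun n => ?_) (tendsto_const_nhds : Tendsto (fun _ : ℕ => (0 : ℝ)) UF (𝓝 0))
    have e1 := congrFun (pcd_ovl s.Q l) n
    have e2 : h (pcd ((l.pj.vv s.Q).chg l.V 1 one_pos) n) (l.up 1 one_pos (pcd s.Q) n) = 0 := by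
      rw [e1]
      exact h_self _
    have e3 : h (pcd ((l.pj.vv s.Q).chg l.V 1 one_pos) n) (l.up 1 one_pos (pcd s.Q) n) / (S.F n).n = 0 := by
      rw [e2, zero_div]
    exact e3.symm
  · rw [vecMul_one, one_pow, one_mul]
  · refine (Typ_true (S := l.sp)).mono (Eventually.of_forall fun n w _ _ a => ⟨a, fun j => ?_⟩)
    have e1 : ((1 : Matrix (Fin M) (Fin M) ℝ) *ᵥ mtan (ob s n) ((l n).p.π w) a) j -
        mtan (ob (ovl s l hl) n) w a j = 0 := by
      rw [Matrix.one_mulVec]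
      exact sub_self _
    rw [e1, abs_zero, one_mul]
    exact (S.dl_pos _ n).le

/-- THE CLASSES `DKU` ARE ORDINARY CLASSES -/
theorem okA_DKU (M k : ℕ) : Pool.Agent.Helper29.MX.OkA M (Pool.Agent.Helper37.DK2.DKU M k) where
  im := fun _ _ _ _ ⟨m, hm⟩ _ p E hE => ⟨m, hm.im (by positivity) p E hE⟩
  trn := fun _ _ _ _ ⟨m, hm⟩ e he h1 => ⟨m, NC_trn (by positivity) hm e he h1⟩
  pnt := fun _ _ _ _ _ ⟨m, hm⟩ hs => ⟨m, NC_pnt (by positivity) hm hs⟩
  add := fun S g r s hs T p g' r' hg L f hf =>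
    Pool.Agent.Helper80.OKC.add_of_subCl (Pool.Agent.Helper80.SUB.subCl_DKU M k) S g r s hs T p g' r' hg L f hf
  sub := Pool.Agent.Helper80.SUB.subCl_DKU M k
  bas := fun _ _ _ _ ⟨m, hm⟩ l hl => ⟨m, NC_bas (by positivity) hm l (hl none) _⟩

end

end Pool.Agent.Helper46.OKD
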